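import Pool.Agent.T2H07.TS.Ten
import Pool.Agent.T2H06.DYN.GeoC

/-!
The linear systems of the sections of the sheaves of rank one in the tensor powers of the cotangent
sheaf are finite dimensional and dominated by hyperplane sections.
-/

set_option autoImplicit false
set_option linter.overlappingInstances false
set_option linter.unusedSectionVars false
set_option linter.unusedVariables false

open FF MvPolynomial Pool.Agent.W602.GT Pool.Agent.W603.LV Pool.Agent.W619.PQ
open Pool.Agent.Y172 Pool.Agent.Y191 Pool.Agent.R887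
open Pool.Agent.T2H06.DYN (Dom VH VH_fg fg_of_bound)

namespace Pool.Agent.T2H07.TS

section

variable {K : Type} [Field K] [Algebra ℂ K] {N n r : ℕ} {y : Fin (N + 1) → K}

theorem over_self {Q P : Place ℂ K} {e : ℕ} (ho : Over Q P e) : e = 1 ∧ Q = P := by
  have h1 : ∀ f, Q.ord f = e * P.ord f := fun f => ho.2 f
  have h3 : (e : ℤ) = 1 := by
    obtain ⟨π, hπ0, hπ⟩ := Q.surj
    have h4 := h1 π
    rw [hπ] at h4
    exact Int.eq_one_of_mul_eq_one_right (Int.natCast_nonneg _) h4.symm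
  refine ⟨by exact_mod_cast h3, ?_⟩
  apply Place.ext
  funext f
  rw [h1 f, h3, one_mul]

/-- the sections, multiplied by a fixed function, have bounded poles -/
theorem secs_bnd (hy : NormalModel y) (hn : Algebra.trdeg ℂ K = n) (hn0 : 0 < n)
    {j : Fin (N + 1)} (hj : y j ≠ 0) {σ : Tensor K r} (hσ : σ ≠ 0) :
    ∃ (B : ℕ) (c : K), c ≠ 0 ∧ ∀ g ∈ secs n σ, g ≠ 0 →
      Bnd ℂ (Set.range fun i => y i / y j) B (c * g) := by
  classical
  have hess := hy.ess
  obtain ⟨M, hM⟩ := tsource (y' := y) hy hn hn0 (Set.finite_empty) hj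
  obtain ⟨C, hC⟩ := hM (K := K) (L := K) hess hn (Bd := ∅) (fun Q Q' e _ _ ho => (over_self ho).1)
    (fun Q Q' e _ _ _ => Set.notMem_empty _)
  obtain ⟨F, hF1, hF2⟩ := hC hσ 1 le_rfl
  by_cases hex : ∃ g₀ ∈ secs n σ, g₀ ≠ 0
  · obtain ⟨g₀, hg₀, hg₀0⟩ := hex
    have h1 := hF1 g₀ (hol_iff.1 hg₀) hg₀0
    refine ⟨1 * (r * M) + C, F g₀ / g₀, div_ne_zero h1.1 hg₀0, fun g hg hg0 => ?_⟩
    have h2 := hF1 g (hol_iff.1 hg) hg0
    have h3 := hF2 g₀ g hg₀0
    simp only [Algebra.algebraMap_self, RingHom.id_apply] at h3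
    have h4 : F g₀ / g₀ * g = F g := by
      rw [div_eq_div_iff h1.1 hg₀0] at h3
      rw [div_mul_eq_mul_div, div_eq_iff hg₀0, h3, mul_comm]
    rw [h4]
    have h5 := h2.2
    unfold affL at h5
    simp only [Algebra.algebraMap_self, RingHom.id_apply] at h5
    exact h5
  · push Not at hex
    exact ⟨0, 1, one_ne_zero, fun g hg hg0 => absurd (hex g hg) hg0⟩

/-- the sections are dominated by hyperplane sections -/
theorem secs_dom (hy : NormalModel y) (hn : Algebra.trdeg ℂ K = n) (hn0 : 0 < n)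
    {σ : Tensor K r} (hσ : σ ≠ 0) : ∃ (C : ℕ) (h : K), Dom n (secs n σ) (VH y) 1 C h := by
  obtain ⟨j, hj⟩ := hy.ne
  obtain ⟨B, c, hc, hB⟩ := secs_bnd hy hn hn0 hj hσ
  refine ⟨B, (y j ^ B * c)⁻¹, inv_ne_zero (mul_ne_zero (pow_ne_zero _ hj) hc),
    fun P hP f hf hf0 => ?_⟩
  obtain ⟨s, ⟨k, rfl⟩, hs0, hle⟩ := hB f hf hf0 P
  have hyk : y k ≠ 0 := by
    intro h0
    apply hs0
    change y k / y j = 0
    rw [h0, zero_div]
  refine ⟨y k, Submodule.subset_span ⟨k, rfl⟩, hyk, ?_⟩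
  rw [P.ord_inv, P.ord_mul (pow_ne_zero _ hj) hc, P.ord_pow]
  change (B : ℤ) * P.ord (y k / y j) ≤ _ at hle
  rw [P.ord_div hyk hj, P.ord_mul hc hf0] at hle
  push_cast
  linarith

/-- the space of the sections has finite dimension -/
theorem secs_fg (hy : NormalModel y) (hn : Algebra.trdeg ℂ K = n) (hn0 : 0 < n)
    {σ : Tensor K r} (hσ : σ ≠ 0) : (secs n σ).FG := by
  classical
  have hess := hy.ess
  obtain ⟨j, hj⟩ := hy.ne
  obtain ⟨B, c, hc, hB⟩ := secs_bnd hy hn hn0 hj hσ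
  obtain ⟨Z, -, hZ, -⟩ := exists_crd hn (k := ℂ) (K := K)
  obtain ⟨C, hC⟩ := growth hZ (fd_basis hZ) (Finset.univ.image fun i => y i / y j)
    (fun _ => {f | f = 0 ∨ Bnd ℂ (Set.range fun i => y i / y j) B f}) (fun P => by
      refine ⟨B * ∑ i, (P.ord (y i / y j)).natAbs, fun m hm f hf => ?_⟩
      rcases hf with rfl | hf
      · exact Or.inl rfl
      right
      obtain ⟨s, ⟨k, rfl⟩, hs0, hle⟩ := hf P
      refine le_trans ?_ hle
      simp only []
      have h1 : (P.ord (y k / y j)).natAbs ≤ ∑ i, (P.ord (y i / y j)).natAbs :=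
        Finset.single_le_sum (f := fun i => (P.ord (y i / y j)).natAbs)
          (fun _ _ => Nat.zero_le _) (Finset.mem_univ k)
      have h2 : -((∑ i, (P.ord (y i / y j)).natAbs : ℕ) : ℤ) ≤ P.ord (y k / y j) := by omega
      have h3 := mul_le_mul_of_nonneg_left h2 (show (0 : ℤ) ≤ B from Int.natCast_nonneg _)
      refine le_trans ?_ h3
      have hm' : (1 : ℤ) ≤ m := by exact_mod_cast hm
      have h4 : (0 : ℤ) ≤ ((B * ∑ i, (P.ord (y i / y j)).natAbs : ℕ) : ℤ) := Int.natCast_nonneg _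
      rw [Nat.cast_mul (B * ∑ i, (P.ord (y i / y j)).natAbs) m, Nat.cast_mul] at *
      nlinarith) (fun P hP m hm f hf => by
      rcases hf with rfl | hf
      · exact P.reg_zero
      right
      obtain ⟨s, ⟨k, rfl⟩, hs0, hle⟩ := hf P
      refine le_trans ?_ hle
      have h1 := (P.reg_iff hs0).1 (hP _ (Finset.mem_image_of_mem _ (Finset.mem_univ k)))
      exact mul_nonneg (Int.natCast_nonneg _) h1)
  refine fg_of_bound (R := C * 1 ^ n) fun l f hf hfV => ?_
  have h1 : LinearIndependent ℂ fun i => c * f i := by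
    have := hf.map' (LinearMap.mulLeft ℂ c) (by
      rw [LinearMap.ker_eq_bot]
      exact mul_right_injective₀ hc)
    exact this
  refine hC 1 le_rfl l _ h1 fun i => ?_
  right
  exact hB _ (hfV i) (hf.ne_zero i)

end

end Pool.Agent.T2H07.TS
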