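import Pool.Agent.T2H06.DYR.Main

/-!
Growth rates of the intersection numbers of the translates of a linear system, in the presence of an
invariant linear system.
-/

set_option autoImplicit false
set_option linter.overlappingInstances false
set_option linter.unusedSectionVars false
set_option linter.unusedVariables false

open FF Module MvPolynomial Filter Topology Pool.Agent.W602.GT Pool.Agent.W603.LV Pool.Agent.W619.PQ
open Pool.Agent.Y172 Pool.Agent.Y191 Pool.Agent.R887
open Pool.Agent.T2H06.DYN (MM MM_dom MM_dom_rep MM_four Dom VH VH_fg pen_VH Sel le_MM exists_MM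
  sel_fin sel_add sel_rep degreeOver_md tendsto_root md Pen sel_cons tri tri_card LD)
open Pool.Agent.T2H06.DYR

namespace Pool.Agent.T2H07.TS

section

variable {K : Type} [Field K] [Algebra ℂ K] [Algebra.EssFiniteType ℂ K] {N n : ℕ}
  {y : Fin (N + 1) → K} {φ : K →ₐ[ℂ] K} {H E : Submodule ℂ K} {c : K}

/-- an invariant linear system -/
structure Inv (n : ℕ) (φ : K →ₐ[ℂ] K) (H E : Submodule ℂ K) : Prop where
  trdeg : Algebra.trdeg ℂ K = n
  deg : 1 ≤ mapDegree φ
  fgH : H.FG
  fgE : E.FG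
  map : ∃ c : K, c ≠ 0 ∧ ∀ g ∈ E, c * φ g ∈ E
  lin : ∃ (C : ℕ) (h : K), Dom n E H 1 C h
  up : ∀ t : ℕ, ∃ (C : ℕ) (h : K), Dom n H (im (φ ^ t) H) 1 C h

theorem AA_fg' (hH : H.FG) (t : ℕ) : (AA φ H t).FG := im_fg hH

theorem map_fg (hF : Inv n φ H E) (i : ℕ) (s : Multiset ℕ) :
    ∀ U ∈ Multiset.replicate i E + s.map (AA φ H), U.FG := by
  intro U hU
  rcases Multiset.mem_add.1 hU with h1 | h1
  · rw [Multiset.eq_of_mem_replicate h1]
    exact hF.fgE
  · obtain ⟨t, -, rfl⟩ := Multiset.mem_map.1 h1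
    exact AA_fg' (φ := φ) hF.fgH t

/-- the transported system is equal to the system up to a factor -/
theorem Inv.exact (hF : Inv n φ H E) : ∃ c : K, c ≠ 0 ∧ (∀ g ∈ E, c * φ g ∈ E) ∧
    ∀ f ∈ E, ∃ g ∈ E, f = c * φ g := by
  obtain ⟨c, hc, hE⟩ := hF.map
  refine ⟨c, hc, hE, ?_⟩
  have hfin : Module.Finite ℂ E := Module.Finite.iff_fg.2 hF.fgE
  let T : E →ₗ[ℂ] E :=
    { toFun := fun g => ⟨c * φ g, hE g g.2⟩
      map_add' := fun a b => by
        apply Subtype.ext
        change c * φ (a + b : K) = c * φ a + c * φ b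
        rw [map_add, mul_add]
      map_smul' := fun z a => by
        apply Subtype.ext
        change c * φ (z • (a : K)) = z • (c * φ a)
        rw [map_smul, mul_smul_comm] }
  have hinj : Function.Injective T := by
    intro a b hab
    have h1 : c * φ a = c * φ b := congrArg Subtype.val hab
    exact Subtype.ext (φ.injective (mul_left_cancel₀ hc h1))
  have hsurj := LinearMap.surjective_of_injective hinj
  intro f hf
  obtain ⟨g, hg⟩ := hsurj ⟨f, hf⟩
  exact ⟨g, g.2, (congrArg Subtype.val hg).symm⟩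

theorem Inv.dom_im (hF : Inv n φ H E) :
    (∃ h : K, Dom n (im φ E) E 1 1 h) ∧ ∃ h : K, Dom n E (im φ E) 1 1 h := by
  obtain ⟨c, hc, h1, h2⟩ := hF.exact
  constructor
  · refine ⟨c⁻¹, inv_ne_zero hc, fun P hP f hf hf0 => ?_⟩
    obtain ⟨g, hg, rfl⟩ := mem_im.1 hf
    refine ⟨c * φ g, h1 g hg, mul_ne_zero hc hf0, ?_⟩
    rw [P.ord_mul hc hf0, P.ord_inv]
    push_cast
    linarith
  · refine ⟨c, hc, fun P hP f hf hf0 => ?_⟩
    obtain ⟨g, hg, rfl⟩ := h2 f hf
    have h3 : φ g ≠ 0 := fun h0 => hf0 (by rw [h0, mul_zero])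
    refine ⟨φ g, ⟨g, hg, rfl⟩, h3, ?_⟩
    rw [P.ord_mul hc h3]
    push_cast
    linarith

/-- the intersection numbers -/
noncomputable def GE (φ : K →ₐ[ℂ] K) (H E : Submodule ℂ K) (i : ℕ) (s : Multiset ℕ) : ℝ :=
  (MM (Multiset.replicate i E + s.map (AA φ H)) : ℝ)

theorem GE_card (hF : Inv n φ H E) {i : ℕ} {s : Multiset ℕ} (h : i + s.card = n) :
    Algebra.trdeg ℂ K = (Multiset.replicate i E + s.map (AA φ H)).card := by
  rw [Multiset.card_add, Multiset.card_replicate, Multiset.card_map, h]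
  exact hF.trdeg

theorem GE_trans (hF : Inv n φ H E) {i : ℕ} {s : Multiset ℕ} (h : i + s.card = n) :
    GE φ H E i (s.map (fun x => x + 1)) = mapDegree φ * GE φ H E i s := by
  have hc := GE_card hF h
  have h1 := MM_map φ hc hc (map_fg hF i s)
  have h2 : (Multiset.replicate i E + s.map (AA φ H)).map (im φ) =
      Multiset.replicate i (im φ E) + (s.map (fun x => x + 1)).map (AA φ H) := by
    rw [Multiset.map_add, Multiset.map_replicate, Multiset.map_map, Multiset.map_map]
    congr 1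
    refine Multiset.map_congr rfl fun x _ => ?_
    rw [Function.comp_apply, Function.comp_apply, AA_succ]
  rw [h2] at h1
  obtain ⟨⟨k1, hd1⟩, k2, hd2⟩ := hF.dom_im
  have hR : ∀ U ∈ (s.map (fun x => x + 1)).map (AA φ H), U.FG := by
    intro U hU
    obtain ⟨t, -, rfl⟩ := Multiset.mem_map.1 hU
    exact AA_fg' (φ := φ) hF.fgH t
  have hcard : i + ((s.map (fun x => x + 1)).map (AA φ H)).card = n := by
    rw [Multiset.card_map, Multiset.card_map, h]
  have h3 := MM_dom_rep hF.trdeg (im_fg hF.fgE) hF.fgE hd1 i hcard hR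
  have h4 := MM_dom_rep hF.trdeg hF.fgE (im_fg hF.fgE) hd2 i hcard hR
  rw [one_pow, one_mul, one_mul] at h3 h4
  have h5 := le_antisymm h4 h3
  unfold GE
  rw [h5, h1]
  push_cast
  ring

theorem GE_four (hF : Inv n φ H E) {i : ℕ} {s : Multiset ℕ} (h : i + s.card + 2 = n)
    (a b c e : ℕ) :
    GE φ H E i (a ::ₘ b ::ₘ s) * GE φ H E i (c ::ₘ e ::ₘ s) ≤
      2 * (GE φ H E i (a ::ₘ c ::ₘ s) * GE φ H E i (b ::ₘ e ::ₘ s) +
        GE φ H E i (a ::ₘ e ::ₘ s) * GE φ H E i (b ::ₘ c ::ₘ s)) := by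
  have e1 : ∀ a b : ℕ, GE φ H E i (a ::ₘ b ::ₘ s) =
      (MM (AA φ H a ::ₘ AA φ H b ::ₘ (Multiset.replicate i E + s.map (AA φ H))) : ℝ) := by
    intro a b
    unfold GE
    rw [Multiset.map_cons, Multiset.map_cons, Multiset.add_cons, Multiset.add_cons]
  simp only [e1]
  exact_mod_cast MM_four (L := Multiset.replicate i E + s.map (AA φ H)) (by
    rw [Multiset.card_add, Multiset.card_replicate, Multiset.card_map, h]
    exact hF.trdeg) (map_fg hF i s) (AA_fg' (φ := φ) hF.fgH a) (AA_fg' (φ := φ) hF.fgH b) (AA_fg' (φ := φ) hF.fgH c)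
    (AA_fg' (φ := φ) hF.fgH e)

theorem GE_mixed (hF : Inv n φ H E) {i : ℕ} {s : Multiset ℕ} (h : i + s.card + 2 = n)
    (a b c : ℕ) :
    GE φ H E i (a ::ₘ b ::ₘ s) * GE φ H E (i + 1) (c ::ₘ s) ≤
      2 * (GE φ H E i (a ::ₘ c ::ₘ s) * GE φ H E (i + 1) (b ::ₘ s) +
        GE φ H E i (b ::ₘ c ::ₘ s) * GE φ H E (i + 1) (a ::ₘ s)) := by
  have e1 : ∀ a b : ℕ, GE φ H E i (a ::ₘ b ::ₘ s) =
      (MM (AA φ H a ::ₘ AA φ H b ::ₘ (Multiset.replicate i E + s.map (AA φ H))) : ℝ) := by
    intro a b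
    unfold GE
    rw [Multiset.map_cons, Multiset.map_cons, Multiset.add_cons, Multiset.add_cons]
  have e2 : ∀ a : ℕ, GE φ H E (i + 1) (a ::ₘ s) =
      (MM (AA φ H a ::ₘ E ::ₘ (Multiset.replicate i E + s.map (AA φ H))) : ℝ) := by
    intro a
    unfold GE
    rw [Multiset.map_cons, Multiset.add_cons, Multiset.replicate_succ, Multiset.cons_add]
  simp only [e1, e2]
  have h1 := MM_four (L := Multiset.replicate i E + s.map (AA φ H)) (by
    rw [Multiset.card_add, Multiset.card_replicate, Multiset.card_map, h]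
    exact hF.trdeg) (map_fg hF i s) (AA_fg' (φ := φ) hF.fgH a) (AA_fg' (φ := φ) hF.fgH b) (AA_fg' (φ := φ) hF.fgH c)
    hF.fgE
  have h2 : ((MM (AA φ H a ::ₘ AA φ H b ::ₘ (Multiset.replicate i E + s.map (AA φ H))) : ℝ) *
      MM (AA φ H c ::ₘ E ::ₘ (Multiset.replicate i E + s.map (AA φ H)))) ≤
      2 * ((MM (AA φ H a ::ₘ AA φ H c ::ₘ (Multiset.replicate i E + s.map (AA φ H))) : ℝ) *
        MM (AA φ H b ::ₘ E ::ₘ (Multiset.replicate i E + s.map (AA φ H))) +
        (MM (AA φ H a ::ₘ E ::ₘ (Multiset.replicate i E + s.map (AA φ H))) : ℝ) *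
        MM (AA φ H b ::ₘ AA φ H c ::ₘ (Multiset.replicate i E + s.map (AA φ H)))) := by
    exact_mod_cast h1
  refine h2.trans (le_of_eq ?_)
  ring

/-- the powers of the embedding -/
theorem Inv.dom_pow (hF : Inv n φ H E) (t : ℕ) : ∃ h : K, Dom n E (im (φ ^ t) E) 1 1 h := by
  induction t with
  | zero =>
    refine ⟨1, one_ne_zero, fun P hP f hf hf0 => ⟨f, ?_, hf0, ?_⟩⟩
    · rw [pow_zero, im_one]
      exact hf
    · rw [P.ord_one]
      push_cast
      linarith
  | succ t ih =>
    obtain ⟨h, hd⟩ := ih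
    obtain ⟨k, hk⟩ := hF.dom_im.2
    have h1 := dom_map hF.trdeg hF.trdeg φ hd
    rw [im_im, ← pow_succ'] at h1
    have h2 := dom_trans hk h1
    exact ⟨_, h2⟩

/-- one member of the system is replaced by a translate of `H` -/
theorem GE_dom (hF : Inv n φ H E) : ∃ C : ℕ, ∀ (i : ℕ) (s : Multiset ℕ), i + 1 + s.card = n →
    ∀ t : ℕ, GE φ H E (i + 1) s ≤ C * GE φ H E i (t ::ₘ s) := by
  obtain ⟨C, h, hd⟩ := hF.lin
  refine ⟨C, fun i s hs t => ?_⟩
  obtain ⟨k, hk⟩ := hF.dom_pow t
  have h1 := dom_trans hk (dom_map hF.trdeg hF.trdeg (φ ^ t) hd)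
  rw [one_mul, one_mul] at h1
  have h2 := MM_dom hF.trdeg (L := Multiset.replicate i E + s.map (AA φ H)) (by
    rw [Multiset.card_add, Multiset.card_replicate, Multiset.card_map]; omega)
    (map_fg hF i s) hF.fgE (AA_fg' (φ := φ) hF.fgH t) h1
  rw [one_mul] at h2
  unfold GE
  rw [Multiset.replicate_succ, Multiset.cons_add, Multiset.map_cons, Multiset.add_cons]
  exact_mod_cast h2

/-- hyperplane sections are replaced by their translates -/
theorem GE_up (hF : Inv n φ H E) (i : ℕ) : ∀ (s s' : Multiset ℕ), i + s.card + s'.card = n →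
    0 < GE φ H E i (Multiset.replicate s.card 0 + s') → 0 < GE φ H E i (s + s') := by
  intro s
  induction s using Multiset.induction_on with
  | empty =>
    intro s' _ h
    rwa [Multiset.card_zero, Multiset.replicate_zero] at h
  | cons t s ih =>
    intro s' hs' h
    rw [Multiset.card_cons] at hs' h
    have e1 : Multiset.replicate (s.card + 1) (0 : ℕ) + s' =
        Multiset.replicate s.card 0 + 0 ::ₘ s' := by
      rw [Multiset.replicate_succ, Multiset.cons_add, Multiset.add_cons]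
    rw [e1] at h
    have h1 := ih (0 ::ₘ s') (by rw [Multiset.card_cons]; omega) h
    obtain ⟨C, k, hd⟩ := hF.up t
    have h2 := MM_dom hF.trdeg (L := Multiset.replicate i E + (s + s').map (AA φ H)) (by
      rw [Multiset.card_add, Multiset.card_replicate, Multiset.card_map, Multiset.card_add]
      omega) (map_fg hF i _) hF.fgH (AA_fg' (φ := φ) hF.fgH t) hd
    rw [one_mul] at h2
    unfold GE at h1 ⊢
    rw [Multiset.add_cons, Multiset.map_cons, AA_zero, Multiset.add_cons] at h1
    rw [Multiset.cons_add, Multiset.map_cons, Multiset.add_cons]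
    by_contra hc
    have h3 : MM (AA φ H t ::ₘ (Multiset.replicate i E + (s + s').map (AA φ H))) = 0 := by
      by_contra h4
      apply hc
      exact_mod_cast Nat.pos_of_ne_zero h4
    rw [h3, mul_zero] at h2
    have h4 : 0 < MM (H ::ₘ (Multiset.replicate i E + (s + s').map (AA φ H))) := by
      exact_mod_cast h1
    omega

/-- **The largest growth rate is attained `j + 1` times.** -/
theorem exact_plateau (hF : Inv n φ H E) {j : ℕ} (hj : j ≤ n)
    (hpos : ∀ i ≤ j, 0 < MM (Multiset.replicate i E + Multiset.replicate (n - i) H)) :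
    ∃ d : ℕ → ℝ, (∀ p ≤ n, Tendsto (fun m : ℕ =>
      Real.log (MM ((Multiset.replicate p m + Multiset.replicate (n - p) 0).map (AA φ H))) / m)
        atTop (𝓝 (d p))) ∧ d 0 = 0 ∧ d n = Real.log (mapDegree φ) ∧
      (∀ p ≤ n, ∀ m : ℕ, 0 <
        MM ((Multiset.replicate p m + Multiset.replicate (n - p) 0).map (AA φ H))) ∧
      ∃ q, q + j ≤ n ∧ ∀ i ≤ j, ∀ p ≤ n, d p ≤ d (q + i) := by
  have hd0 : (0 : ℝ) < mapDegree φ := by exact_mod_cast hF.deg
  have hallpos : ∀ i ≤ j, ∀ s : Multiset ℕ, i + s.card = n → 0 < GE φ H E i s := by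
    intro i hi s hs
    have h1 := GE_up hF i s 0 (by rw [Multiset.card_zero]; omega) (by
      unfold GE
      rw [add_zero, Multiset.map_replicate, AA_zero, show s.card = n - i by omega]
      exact_mod_cast hpos i hi)
    rwa [add_zero] at h1
  have htr : ∀ i ≤ n, ∀ s : Multiset ℕ, s.card = n - i →
      GE φ H E i (s.map (fun x => x + 1)) = mapDegree φ * GE φ H E i s :=
    fun i hi s hs => GE_trans hF (by omega)
  have hlor : ∀ i ≤ j, LorT (n - i) (Real.log (mapDegree φ)) (ext (mapDegree φ) (GE φ H E i)) :=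
    fun i hi => ext_lor hd0 (htr i (by omega)) (fun s hs => hallpos i hi s (by omega))
      fun ω b c d e hω => GE_four hF (by omega) b c d e
  have hsucc : ∀ i < j, n - i = n - (i + 1) + 1 := fun i hi => by omega
  obtain ⟨C, hC⟩ := GE_dom hF
  obtain ⟨d, hd, hq⟩ := plateau (D₀ := Real.log (mapDegree φ)) hj
    (F := fun i => ext (mapDegree φ) (GE φ H E i)) hlor (by
      intro i hi ω b c e hω
      refine ext_mixed (N := n - (i + 1)) hd0 (fun s hs => htr i (by omega) s (by omega))
        (fun s hs => htr (i + 1) (by omega) s hs) (fun ω b c e hω => ?_) ω b c e hω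
      exact GE_mixed hF (by omega) b c e) (by
      intro i hi
      refine ⟨C, fun s hs t => ?_⟩
      exact ext_dom (N := n - (i + 1)) hd0 (fun s hs => htr i (by omega) s (by omega))
        (fun s hs => htr (i + 1) (by omega) s hs) (fun s hs t => hC i s (by omega) t) s hs t)
  have h0 := hlor 0 (Nat.zero_le _)
  rw [Nat.sub_zero] at h0
  have hz : ∀ s : Multiset ℕ, GE φ H E 0 s = (MM (s.map (AA φ H)) : ℝ) := by
    intro s
    unfold GE
    rw [Multiset.replicate_zero, zero_add]
  refine ⟨d, fun p hp => (hd p hp).congr fun m => ?_, h0.rate_zero (hd 0 (Nat.zero_le _)),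
    h0.rate_top (hd n le_rfl), fun p hp m => ?_, hq⟩
  · unfold LD
    have hv : ∀ x ∈ Pool.Agent.T2H06.DYN.tri (m : ℤ) 0 0 p 0 (n - p), 0 ≤ x + ((0 : ℕ) : ℤ) := by
      intro x hx
      unfold Pool.Agent.T2H06.DYN.tri at hx
      rcases Multiset.mem_add.1 hx with hx | hx
      · rcases Multiset.mem_add.1 hx with hx | hx
        · rw [Multiset.eq_of_mem_replicate hx]
          positivity
        · rw [Multiset.eq_of_mem_replicate hx]
          simp
      · rw [Multiset.eq_of_mem_replicate hx]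
        simp
    rw [ext_eq (N := n) hd0 (fun s hs => htr 0 (Nat.zero_le _) s (by omega))
      (by rw [tri_card]; omega) hv, pow_zero, inv_one, one_mul, up_tri, hz]
  · have h1 := hallpos 0 (Nat.zero_le _) (Multiset.replicate p m + Multiset.replicate (n - p) 0) (by
      rw [Multiset.card_add, Multiset.card_replicate, Multiset.card_replicate]; omega)
    rw [hz] at h1
    exact_mod_cast h1

/-- independent quotients give positive intersection numbers -/
theorem pos_of_indep (hy : NormalModel y) (hn : Algebra.trdeg ℂ K = n) (hE : E.FG) {j : ℕ}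
    (hj : j ≤ n) {w : Fin j → K} (hw : ∀ i, Pen E (w i)) (hind : AlgebraicIndependent ℂ w) :
    ∀ i ≤ j, 0 < MM (Multiset.replicate i E + Multiset.replicate (n - i) (VH y)) := by
  intro i hi
  have h1 : AlgebraicIndependent ℂ fun a : Fin i => w (Fin.castLE hi a) :=
    hind.comp _ (Fin.castLE_injective hi)
  obtain ⟨u, hu, hd⟩ := exists_complete hy hn (hi.trans hj) h1
  have hfg : ∀ U ∈ Multiset.replicate i E + Multiset.replicate (n - i) (VH y), U.FG := by
    intro U hU
    rcases Multiset.mem_add.1 hU with h1 | h1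
    · rw [Multiset.eq_of_mem_replicate h1]
      exact hE
    · rw [Multiset.eq_of_mem_replicate h1]
      exact VH_fg
  have hcard : Algebra.trdeg ℂ K =
      (Multiset.replicate i E + Multiset.replicate (n - i) (VH y)).card := by
    rw [Multiset.card_add, Multiset.card_replicate, Multiset.card_replicate, hn]
    congr 1
    omega
  have hsel := Multiset.Rel.add (sel_rep (V := E) fun a : Fin i => hw (Fin.castLE hi a))
    (sel_rep (V := VH y) fun a => pen_VH.2 (hu a))
  refine lt_of_lt_of_le ?_ (le_MM hcard hfg hsel)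
  have h2 := degreeOver_md u fun a : Fin i => w (Fin.castLE hi a)
  rw [← h2]
  unfold degreeOver
  unfold dg at hd
  rw [Set.Sum.elim_range] at hd
  exact hd

end

end Pool.Agent.T2H07.TS
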