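import Pool.Agent.T2H07.TS.Bound
import Pool.Agent.T2H07.TS.Exact
import Pool.Agent.R887.TensF

/-!
**The holomorphic tensor fields of a projective variety and the dynamical degrees of its dominant
rational self-maps.**
-/

set_option autoImplicit false
set_option linter.overlappingInstances false
set_option linter.unusedSectionVars false
set_option linter.unusedVariables false

open FF Module MvPolynomial Filter Topology Pool.Agent.W602.GT Pool.Agent.W603.LV Pool.Agent.W619.PQ
open Pool.Agent.Y172 Pool.Agent.Y191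
open Pool.Agent.T2H06.DYN (MM MM_dom MM_dom_rep MM_four Dom VH VH_fg pen_VH Sel le_MM exists_MM
  sel_fin sel_add sel_rep degreeOver_md tendsto_root md Pen)
open Pool.Agent.T2H06.DYR
open Pool.Agent.R887

namespace Pool.Agent.T2H07.TS

section

variable {K : Type} [Field K] [Algebra ℂ K] {N n : ℕ} {y : Fin (N + 1) → K}

/-- the degrees of the iterates are intersection numbers -/
theorem isGreatest_iter' [Algebra.EssFiniteType ℂ K] (hn : Algebra.trdeg ℂ K = n)
    {φ : K →ₐ[ℂ] K} {p : ℕ} (hp : p ≤ n) (m : ℕ)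
    (hpos : 0 < MM ((Multiset.replicate p m + Multiset.replicate (n - p) 0).map (AA φ (VH y)))) :
    IsGreatest (iterDegrees y n φ p m)
      (MM ((Multiset.replicate p m + Multiset.replicate (n - p) 0).map (AA φ (VH y)))) := by
  have htri : (Multiset.replicate p m + Multiset.replicate (n - p) 0).map (AA φ (VH y)) =
      Multiset.replicate p (im (φ ^ m) (VH y)) + Multiset.replicate (n - p) (VH y) := by
    rw [Multiset.map_add, Multiset.map_replicate, Multiset.map_replicate, AA_zero]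
    rfl
  have hcard : Algebra.trdeg ℂ K =
      ((Multiset.replicate p m + Multiset.replicate (n - p) 0).map (AA φ (VH y))).card := by
    rw [Multiset.card_map, Multiset.card_add, Multiset.card_replicate, Multiset.card_replicate, hn]
    congr 1
    omega
  have hfg : ∀ U ∈ (Multiset.replicate p m + Multiset.replicate (n - p) 0).map (AA φ (VH y)),
      U.FG := by
    intro U hU
    obtain ⟨t, -, rfl⟩ := Multiset.mem_map.1 hU
    exact im_fg VH_fg
  constructor
  · obtain ⟨l, hl, hmd⟩ := exists_MM hcard hfg hpos.ne'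
    rw [← hmd]
    rw [htri] at hl
    obtain ⟨l₁, l₂, h1, h2, rfl⟩ := sel_add hl
    obtain ⟨u', hu', rfl⟩ := sel_fin h1
    obtain ⟨v, hv, rfl⟩ := sel_fin h2
    choose u hu hgu using fun a => pen_im.1 (hu' a)
    refine ⟨u, v, fun a => pen_VH.1 (hu a), fun a => pen_VH.1 (hv a), ?_⟩
    rw [degreeOver_md, add_comm]
    congr 2
    congr 1
    funext a
    exact hgu a
  · rintro _ ⟨u, v, hu, hv, rfl⟩
    rw [degreeOver_md]
    refine le_MM hcard hfg ?_
    rw [htri, add_comm]
    refine Multiset.Rel.add (sel_rep fun a => pen_VH.2 (hv a)) (sel_rep fun a => ?_)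
    exact pen_im.2 ⟨_, pen_VH.2 (hu a), rfl⟩

/-- the constants are an invariant linear system -/
theorem inv_const (hy : NormalModel y) (hn : Algebra.trdeg ℂ K = n) (φ : K →ₐ[ℂ] K)
    [Algebra.EssFiniteType ℂ K] :
    Inv n φ (VH y) (Submodule.span ℂ {(1 : K)}) := by
  obtain ⟨j, hj⟩ := hy.ne
  refine ⟨hn, deg_pos hn hn φ, VH_fg, Submodule.fg_span (Set.finite_singleton _),
    ⟨1, one_ne_zero, fun g hg => ?_⟩, ⟨0, 1, one_ne_zero, fun P hP f hf hf0 => ?_⟩,
    fun t => exists_up' hy hy hn hn (φ ^ t)⟩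
  · obtain ⟨z, rfl⟩ := Submodule.mem_span_singleton.1 hg
    rw [one_mul, map_smul, map_one]
    exact Submodule.smul_mem _ _ (Submodule.subset_span rfl)
  · obtain ⟨z, rfl⟩ := Submodule.mem_span_singleton.1 hf
    refine ⟨y j, Submodule.subset_span ⟨j, rfl⟩, hj, ?_⟩
    have hz : z ≠ 0 := by
      rintro rfl
      rw [zero_smul] at hf0
      exact hf0 rfl
    rw [P.ord_one, Algebra.smul_def, mul_one, P.ord_const hz]
    simp

/-- the invariant linear system of a sheaf of rank one -/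
theorem exists_inv_sys (hy : NormalModel y) (hn : Algebra.trdeg ℂ K = n) (hn0 : 0 < n)
    [Algebra.EssFiniteType ℂ K] {r : ℕ} {σ : Tensor K r} (hσ : σ ≠ 0) {j : ℕ}
    (h : TensorKodairaGe n ∅ σ j) :
    ∃ E : Submodule ℂ K, (∀ φ : K →ₐ[ℂ] K, Inv n φ (VH y) E) ∧
      ∃ w : Fin j → K, (∀ i, Pen E (w i)) ∧ AlgebraicIndependent ℂ w := by
  obtain ⟨x, E, hx, hE⟩ := exists_crd hn (k := ℂ) (K := K)
  obtain ⟨m, hm, g, hg, hg0, hind⟩ := h
  obtain ⟨τ, hτ⟩ : ∃ τ : Tensor K (m * r), τ = g 0 • tpow m σ := ⟨_, rfl⟩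
  have hτ0 : τ ≠ 0 := by
    rw [hτ]
    exact smul_ne_zero hg0 (tpow_ne m hσ)
  obtain ⟨s, σ', hσ', h1, hmap, hsec⟩ := exists_inv (n := n) hn hx hE (l := 1) (τ := fun _ => τ)
    (fun _ => by rw [hτ]; exact hol_tpow hm (hg 0))
    (LinearIndependent.of_subsingleton (0 : Fin 1) hτ0)
  refine ⟨secs n σ', fun φ => ⟨hn, deg_pos hn hn φ, VH_fg, secs_fg hy hn hn0 hσ', hmap φ,
    secs_dom hy hn hn0 hσ', fun t => exists_up' hy hy hn hn (φ ^ t)⟩,
    fun i => g i.succ / g 0, fun i => ?_, hind⟩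
  refine ⟨g i.succ / g 0, hsec 0 _ ?_, 1, h1, one_ne_zero, by rw [div_one]⟩
  rw [hτ, smul_smul, div_mul_cancel₀ _ hg0]
  exact hol_tpow hm (hg _)

/-- **Dynamical degrees and rank one sheaves of tensor fields.** -/
theorem selfmap (hy : NormalModel y) (hn : Algebra.trdeg ℂ K = n) (hn0 : 0 < n)
    (φ : K →ₐ[ℂ] K) :
    ∃ δ : ℕ → ℝ, (∀ p ≤ n, 1 ≤ δ p ∧ DynDegree y n φ p (δ p)) ∧ δ 0 = 1 ∧ δ n = mapDegree φ ∧
      ∀ (r : ℕ) (σ : Tensor K r), σ ≠ 0 → ∀ j, TensorKodairaGe n ∅ σ j →
        ∃ q, q + j ≤ n ∧ ∀ i ≤ j, ∀ p ≤ n, δ p ≤ δ (q + i) := by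
  classical
  have hess := hy.ess
  have hF := inv_const hy hn φ
  obtain ⟨d, hd, hd0, hdn, hpos, -⟩ := exact_plateau hF (j := 0) (Nat.zero_le n)
    (pos_of_indep hy hn hF.fgE (Nat.zero_le n) (w := fun i : Fin 0 => i.elim0)
      (fun i => i.elim0) (algebraicIndependent_empty_type))
  have hdeg : (0 : ℝ) < mapDegree φ := by exact_mod_cast hF.deg
  refine ⟨fun p => Real.exp (d p), fun p hp => ⟨?_, _, fun m => isGreatest_iter' hn hp m
    (hpos p hp m), tendsto_root (hpos p hp) (hd p hp)⟩, ?_, ?_, fun r σ hσ j hj => ?_⟩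
  · refine Real.one_le_exp (ge_of_tendsto' (hd p hp) fun m => ?_)
    have h1 : (1 : ℝ) ≤ MM ((Multiset.replicate p m +
        Multiset.replicate (n - p) 0).map (AA φ (VH y))) := by
      exact_mod_cast hpos p hp m
    exact div_nonneg (Real.log_nonneg h1) (Nat.cast_nonneg _)
  · simp only [hd0, Real.exp_zero]
  · simp only [hdn]
    exact Real.exp_log hdeg
  · obtain ⟨E, hE, w, hw, hind⟩ := exists_inv_sys hy hn hn0 hσ hj
    have hjn : j ≤ n := by
      have h1 := hind.cardinalMk_le_trdeg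
      rw [hn, Cardinal.mk_fin] at h1
      exact_mod_cast h1
    obtain ⟨d', hd', -, -, -, q, hq, hmax⟩ := exact_plateau (hE φ) hjn
      (pos_of_indep hy hn (hE φ).fgE hjn hw hind)
    have e : ∀ p ≤ n, d' p = d p := fun p hp => tendsto_nhds_unique (hd' p hp) (hd p hp)
    refine ⟨q, hq, fun i hi p hp => Real.exp_le_exp.2 ?_⟩
    rw [← e p hp, ← e (q + i) (by omega)]
    exact hmax i hi p hp

/-- functions of Kodaira dimension zero are constant -/
theorem const_of_not {r : ℕ} {σ : Tensor K r} (h : ¬ TensorKodairaGe n ∅ σ 1) {g : K}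
    (h1 : IsTensorSection n ∅ σ 1 1) (hg : IsTensorSection n ∅ σ 1 g) :
    ∃ z : ℂ, algebraMap ℂ K z = g := by
  by_cases htr : Transcendental ℂ g
  · exfalso
    apply h
    refine ⟨1, le_rfl, ![1, g], fun i => ?_, one_ne_zero, ?_⟩
    · fin_cases i
      · exact h1
      · exact hg
    · have h3 : (fun i : Fin 1 => (![1, g] : Fin 2 → K) i.succ / (![1, g] : Fin 2 → K) 0) =
          fun _ => g := by
        funext i
        fin_cases i
        change g / 1 = g
        rw [div_one]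
      rw [h3]
      exact algebraicIndependent_unique_type_iff.2 htr
  · have halg : IsAlgebraic ℂ g := by
      rwa [Transcendental, not_not] at htr
    have hint : IsIntegral ℂ g := halg.isIntegral
    have h1 := IsAlgClosed.degree_eq_one_of_irreducible ℂ (minpoly.irreducible hint)
    exact minpoly.mem_range_of_degree_eq_one ℂ g h1

/-- **Consequences if the largest dynamical degree is attained once.** -/
theorem special_of_unique (hn : Algebra.trdeg ℂ K = n)
    (h : ∀ (r : ℕ) (σ : Tensor K r), σ ≠ 0 → ¬ TensorKodairaGe n ∅ σ 1) :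
    Special n (∅ : Set (Place ℂ K)) ∧
      ∀ (r l : ℕ) (τ : Fin l → Tensor K r), (∀ i, HolomorphicTensor n (τ i)) →
        LinearIndependent ℂ τ → LinearIndependent K τ ∧ l ≤ n ^ r := by
  obtain ⟨x, E, hx, hE⟩ := exists_crd hn (k := ℂ) (K := K)
  refine ⟨fun p hp σ hσ _ hk => h p σ hσ (hk.mono hp), fun r l τ hτ hind => ?_⟩
  have h1 := hol_indep hx hE (fun q _ σ hσ g hs1 hsg => const_of_not (h _ σ hσ) hs1 hsg) hτ hind
  exact ⟨h1, card_le hx hE h1⟩

end

end Pool.Agent.T2H07.TS
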