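import Pool.Agent.R887.TensE

/-!
Pull backs of tensor fields, and the determinants of the holomorphic tensor fields: an invariant
sheaf of rank one.
-/

set_option autoImplicit false
set_option linter.overlappingInstances false
set_option linter.unusedSectionVars false
set_option linter.unusedVariables false

open FF MvPolynomial Pool.Agent.W602.GT Pool.Agent.W603.LV Pool.Agent.W619.PQ
open Pool.Agent.Y172 Pool.Agent.Y191 Pool.Agent.R887

namespace Pool.Agent.T2H07.TS

section

variable {K : Type} [Field K] [Algebra ℂ K] {n r q m : ℕ}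

theorem reg_prod {P : Place ℂ K} {ι : Type*} (s : Finset ι) {f : ι → K}
    (h : ∀ i ∈ s, P.Reg (f i)) : P.Reg (∏ i ∈ s, f i) := by
  classical
  induction s using Finset.induction_on with
  | empty => exact P.reg_one
  | insert i s hi ih =>
    rw [Finset.prod_insert hi]
    exact P.reg_mul (h i (Finset.mem_insert_self _ _))
      (ih fun j hj => h j (Finset.mem_insert_of_mem hj))

theorem reg_of_pow {P : Place ℂ K} {z : K} {m : ℕ} (hm : 1 ≤ m) (h : P.Reg (z ^ m)) :
    P.Reg z := by
  by_cases h0 : z = 0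
  · rw [h0]
    exact P.reg_zero
  have h1 := (P.reg_iff (pow_ne_zero m h0)).1 h
  rw [P.ord_pow] at h1
  refine (P.reg_iff h0).2 ?_
  have h2 : (0 : ℤ) < m := by exact_mod_cast hm
  exact nonneg_of_mul_nonneg_right h1 h2

/-- the tensor powers of a tensor field -/
noncomputable def tpow (m : ℕ) (σ : Tensor K r) : Tensor K (m * r) where
  toFun E := ∏ j : Fin m, σ fun a => E (finProdFinEquiv (j, a))
  map_update_add' {inst} E c v w := by
    classical
    have hinst : inst = instDecidableEqFin (m * r) := Subsingleton.elim _ _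
    subst hinst
    obtain ⟨⟨j0, a0⟩, rfl⟩ := finProdFinEquiv.surjective c
    have key : ∀ v : Derivation ℂ K K, (∏ j : Fin m, σ fun a =>
        Function.update E (finProdFinEquiv (j0, a0)) v (finProdFinEquiv (j, a))) =
        σ (Function.update (fun a => E (finProdFinEquiv (j0, a))) a0 v) *
          ∏ j ∈ Finset.univ.erase j0, σ fun a => E (finProdFinEquiv (j, a)) := by
      intro v
      rw [← Finset.mul_prod_erase _ _ (Finset.mem_univ j0), slot_update, if_pos rfl]
      congr 1
      refine Finset.prod_congr rfl fun j hj => ?_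
      rw [slot_update, if_neg (Finset.ne_of_mem_erase hj)]
    rw [key, key, key, MultilinearMap.map_update_add, add_mul]
  map_update_smul' {inst} E c z v := by
    classical
    have hinst : inst = instDecidableEqFin (m * r) := Subsingleton.elim _ _
    subst hinst
    obtain ⟨⟨j0, a0⟩, rfl⟩ := finProdFinEquiv.surjective c
    have key : ∀ v : Derivation ℂ K K, (∏ j : Fin m, σ fun a =>
        Function.update E (finProdFinEquiv (j0, a0)) v (finProdFinEquiv (j, a))) =
        σ (Function.update (fun a => E (finProdFinEquiv (j0, a))) a0 v) *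
          ∏ j ∈ Finset.univ.erase j0, σ fun a => E (finProdFinEquiv (j, a)) := by
      intro v
      rw [← Finset.mul_prod_erase _ _ (Finset.mem_univ j0), slot_update, if_pos rfl]
      congr 1
      refine Finset.prod_congr rfl fun j hj => ?_
      rw [slot_update, if_neg (Finset.ne_of_mem_erase hj)]
    rw [key, key, MultilinearMap.map_update_smul, smul_eq_mul, smul_eq_mul, mul_assoc]

theorem tpow_apply (m : ℕ) (σ : Tensor K r) (E : Fin (m * r) → Derivation ℂ K K) :
    tpow m σ E = ∏ j : Fin m, σ fun a => E (finProdFinEquiv (j, a)) := rfl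

theorem tpow_ne (m : ℕ) {σ : Tensor K r} (h : σ ≠ 0) : tpow m σ ≠ 0 := by
  obtain ⟨F, hF⟩ : ∃ F, σ F ≠ 0 := by
    by_contra hc
    push Not at hc
    apply h
    ext F
    rw [hc F]
    rfl
  intro h0
  have h1 : tpow m σ (fun c => F (finProdFinEquiv.symm c).2) = 0 := by
    rw [h0]
    rfl
  rw [tpow_apply] at h1
  simp only [Equiv.symm_apply_apply] at h1
  rw [Finset.prod_const] at h1
  exact pow_ne_zero _ hF h1

/-- the sections give holomorphic tensor fields -/
theorem hol_tpow (hm : 1 ≤ m) {σ : Tensor K r} {g : K} (hg : IsTensorSection n ∅ σ m g) :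
    HolomorphicTensor n (g • tpow m σ) := by
  intro P hP E hE
  rw [smul_apply, smul_eq_mul, tpow_apply]
  refine reg_of_pow hm ?_
  rw [mul_pow, ← Finset.prod_pow]
  have h1 : g ^ m = ∏ _j : Fin m, g := by
    rw [Finset.prod_const, Finset.card_univ, Fintype.card_fin]
  rw [h1, ← Finset.prod_mul_distrib]
  exact reg_prod _ fun j _ => hg.2 P hP (Set.notMem_empty P) _ fun a => hE _

theorem hol_iff {σ : Tensor K r} {g : K} :
    HolomorphicTensor n (g • σ) ↔ IsTensorSection n ∅ σ 1 g := by
  constructor
  · intro h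
    have key : ∀ P : Place ℂ K, Divisorial n P → ∀ E : Fin r → Derivation ℂ K K,
        (∀ i, DerReg P (E i)) → P.Reg (g * σ E ^ 1) := by
      intro P hP E hE
      have := h P hP E hE
      rw [smul_apply, smul_eq_mul] at this
      rw [pow_one]
      exact this
    exact ⟨fun P hP E hE => key P hP E fun i => derLog_reg' (hE i), fun P hP _ E hE => key P hP E hE⟩
  · intro h P hP E hE
    have := h.2 P hP (Set.notMem_empty P) E hE
    rw [pow_one] at this
    rw [smul_apply, smul_eq_mul]
    exact this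

/-- tensor fields which agree on a frame -/
theorem tensor_ext {x : Fin n → K} {E : Fin n → Derivation ℂ K K}
    (hx : IsTranscendenceBasis ℂ x) (hE : ∀ i j, E i (x j) = if i = j then 1 else 0)
    {σ τ : Tensor K r} (h : ∀ I : Fin r → Fin n, σ (fun k => E (I k)) = τ fun k => E (I k)) :
    σ = τ := by
  ext D
  rw [tensor_coord hx hE σ D, tensor_coord hx hE τ D]
  exact Finset.sum_congr rfl fun I _ => by rw [h I]

theorem det_ne_indep {τ : Fin q → Tensor K r} (h : detTensor τ ≠ 0) : LinearIndependent K τ := by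
  rw [Fintype.linearIndependent_iff]
  intro c hc
  by_contra hcon
  push Not at hcon
  obtain ⟨i, hi⟩ := hcon
  apply h
  ext E
  rw [detTensor_apply]
  refine Matrix.exists_vecMul_eq_zero_iff.1 ⟨c, fun h0 => hi (congrFun h0 i), ?_⟩
  funext j
  rw [Matrix.vecMul, dotProduct]
  have h1 := congrArg (fun τ : Tensor K r => τ fun a => E (finProdFinEquiv (j, a))) hc
  simp only [sum_apply, smul_apply, smul_eq_mul] at h1
  exact h1

/-- the determinant of combinations -/
theorem det_comb {v w : Fin q → Tensor K r} {M : Matrix (Fin q) (Fin q) K}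
    (h : ∀ i, w i = ∑ j, M i j • v j) : detTensor w = M.det • detTensor v := by
  ext E
  rw [smul_apply, smul_eq_mul, detTensor_apply, detTensor_apply, ← Matrix.det_mul]
  congr 1
  ext i j
  rw [Matrix.of_apply, h i, Matrix.mul_apply, sum_apply]
  rfl

theorem det_hol {τ : Fin q → Tensor K r} (h : ∀ i, HolomorphicTensor n (τ i)) :
    HolomorphicTensor n (detTensor τ) := by
  intro P hP E hE
  rw [detTensor_apply]
  exact det_reg fun i j => h i P hP _ fun a => hE _

/-- a maximal family of holomorphic tensor fields which are linearly independent over the field of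
rational functions -/
theorem exists_max {x : Fin n → K} {E : Fin n → Derivation ℂ K K}
    (hx : IsTranscendenceBasis ℂ x) (hE : ∀ i j, E i (x j) = if i = j then 1 else 0)
    {l : ℕ} {τ : Fin l → Tensor K r} (hτ : ∀ i, HolomorphicTensor n (τ i))
    (hind : LinearIndependent K τ) :
    ∃ (q : ℕ) (v : Fin q → Tensor K r), (∀ i, HolomorphicTensor n (v i)) ∧
      LinearIndependent K v ∧ (∀ i, τ i ∈ Set.range v) ∧
      ∀ w : Tensor K r, HolomorphicTensor n w → w ∈ Submodule.span K (Set.range v) := by
  classical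
  let S : Set ℕ := {q | ∃ v : Fin q → Tensor K r, (∀ i, HolomorphicTensor n (v i)) ∧
    LinearIndependent K v ∧ ∀ i, τ i ∈ Set.range v}
  have hne : S.Nonempty := ⟨l, τ, hτ, hind, fun i => ⟨i, rfl⟩⟩
  have hbd : BddAbove S := ⟨n ^ r, by
    rintro q ⟨v, -, hv, -⟩
    exact card_le hx hE hv⟩
  obtain ⟨v, hv1, hv2, hv3⟩ := Nat.sSup_mem hne hbd
  refine ⟨sSup S, v, hv1, hv2, hv3, fun w hw => ?_⟩
  by_contra hcon
  have h1 : sSup S + 1 ∈ S := by
    refine ⟨Fin.snoc v w, fun i => ?_, ?_, fun i => ?_⟩
    · refine Fin.lastCases ?_ (fun i => ?_) i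
      · rw [Fin.snoc_last]
        exact hw
      · rw [Fin.snoc_castSucc]
        exact hv1 i
    · rw [linearIndependent_finSucc']
      refine ⟨?_, ?_⟩
      · rw [Fin.init_snoc]
        exact hv2
      · rw [Fin.init_snoc, Fin.snoc_last]
        exact hcon
    · obtain ⟨j, hj⟩ := hv3 i
      exact ⟨Fin.castSucc j, by rw [Fin.snoc_castSucc]; exact hj⟩
  have h2 := le_csSup hbd h1
  omega

/-- the determinants of holomorphic tensor fields are proportional -/
theorem det_prop {v : Fin q → Tensor K r}
    (hmax : ∀ w : Tensor K r, HolomorphicTensor n w → w ∈ Submodule.span K (Set.range v))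
    {w : Fin q → Tensor K r} (hw : ∀ i, HolomorphicTensor n (w i)) :
    ∃ c : K, detTensor w = c • detTensor v := by
  have h1 : ∀ i, ∃ a : Fin q → K, ∑ j, a j • v j = w i := fun i =>
    (Submodule.mem_span_range_iff_exists_fun K).1 (hmax _ (hw i))
  choose a ha using h1
  exact ⟨(Matrix.of a).det, det_comb fun i => (ha i).symm⟩

end

section

variable {K L : Type} [Field K] [Algebra ℂ K] [Field L] [Algebra ℂ L] {n r q : ℕ}

/-- the value of a derivation on an element -/
def ev (z : L) : Derivation ℂ L L →ₗ[L] L where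
  toFun D := D z
  map_add' _ _ := rfl
  map_smul' _ _ := rfl

/-- the pull back of a tensor field, by means of coordinates `x` with dual derivations `E` -/
noncomputable def pb (φ : K →ₐ[ℂ] L) (x : Fin n → K) (E : Fin n → Derivation ℂ K K)
    (σ : Tensor K r) : Tensor L r :=
  ∑ I : Fin r → Fin n, φ (σ fun k => E (I k)) •
    (MultilinearMap.mkPiAlgebra L (Fin r) L).compLinearMap fun k => ev (φ (x (I k)))

theorem pb_apply (φ : K →ₐ[ℂ] L) (x : Fin n → K) (E : Fin n → Derivation ℂ K K)
    (σ : Tensor K r) (D : Fin r → Derivation ℂ L L) :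
    pb φ x E σ D = ∑ I : Fin r → Fin n, (∏ k, D k (φ (x (I k)))) * φ (σ fun k => E (I k)) := by
  unfold pb
  rw [sum_apply]
  refine Finset.sum_congr rfl fun I _ => ?_
  rw [smul_apply, MultilinearMap.compLinearMap_apply,
    MultilinearMap.mkPiAlgebra_apply, smul_eq_mul, mul_comm]
  rfl

theorem pb_smul (φ : K →ₐ[ℂ] L) (x : Fin n → K) (E : Fin n → Derivation ℂ K K) (g : K)
    (σ : Tensor K r) : pb φ x E (g • σ) = φ g • pb φ x E σ := by
  ext D
  rw [smul_apply, pb_apply, pb_apply, smul_eq_mul, Finset.mul_sum]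
  refine Finset.sum_congr rfl fun I _ => ?_
  rw [smul_apply, smul_eq_mul, map_mul]
  ring

/-- the values of the pull back on the lifts of the frame -/
theorem pb_lift (φ : K →ₐ[ℂ] L) {x : Fin n → K} {E : Fin n → Derivation ℂ K K}
    (hx : IsTranscendenceBasis ℂ x) (hE : ∀ i j, E i (x j) = if i = j then 1 else 0)
    {E' : Fin n → Derivation ℂ L L} (hE' : ∀ i f, E' i (φ f) = φ (E i f)) (σ : Tensor K r)
    (I : Fin r → Fin n) :
    pb φ x E σ (fun k => E' (I k)) = φ (σ fun k => E (I k)) := by
  rw [pb_apply, tensor_coord hx hE σ fun k => E (I k), map_sum]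
  refine Finset.sum_congr rfl fun J _ => ?_
  rw [map_mul, map_prod]
  congr 1
  exact Finset.prod_congr rfl fun k _ => hE' _ _

/-- the lifts of the frame -/
theorem exists_frame (hn : Algebra.trdeg ℂ K = n) (hn' : Algebra.trdeg ℂ L = n)
    [Algebra.EssFiniteType ℂ L] (φ : K →ₐ[ℂ] L) {x : Fin n → K} {E : Fin n → Derivation ℂ K K}
    (hx : IsTranscendenceBasis ℂ x) (hE : ∀ i j, E i (x j) = if i = j then 1 else 0) :
    ∃ E' : Fin n → Derivation ℂ L L, (∀ i f, E' i (φ f) = φ (E i f)) ∧
      IsTranscendenceBasis ℂ (fun i => φ (x i)) ∧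
      ∀ i j, E' i (φ (x j)) = if i = j then 1 else 0 := by
  let _ : Algebra K L := φ.toRingHom.toAlgebra
  have hst : IsScalarTower ℂ K L := IsScalarTower.of_algebraMap_eq fun c => (φ.commutes c).symm
  have hfd : FiniteDimensional K L := finite_map hn hn'
  choose E' hE' using fun i => exists_lift (L := L) hn (E i)
  have halg : Algebra.IsAlgebraic K L := inferInstance
  exact ⟨E', fun i f => hE' i f, hx.algebraMap_comp (A := L), lift_dual hE hE'⟩

/-- the pull back of a determinant -/
theorem pb_det (hn : Algebra.trdeg ℂ K = n) (hn' : Algebra.trdeg ℂ L = n)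
    [Algebra.EssFiniteType ℂ L] (φ : K →ₐ[ℂ] L) {x : Fin n → K} {E : Fin n → Derivation ℂ K K}
    (hx : IsTranscendenceBasis ℂ x) (hE : ∀ i j, E i (x j) = if i = j then 1 else 0)
    (τ : Fin q → Tensor K r) :
    pb φ x E (detTensor τ) = detTensor fun i => pb φ x E (τ i) := by
  obtain ⟨E', h1, h2, h3⟩ := exists_frame hn hn' φ hx hE
  refine tensor_ext h2 h3 fun I => ?_
  rw [pb_lift φ hx hE h1, detTensor_apply, detTensor_apply]
  change φ.toRingHom _ = _
  rw [RingHom.map_det]
  congr 1
  ext i j
  exact (pb_lift φ hx hE h1 (τ i) fun a => I (finProdFinEquiv (j, a))).symm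

theorem pb_ne (hn : Algebra.trdeg ℂ K = n) (hn' : Algebra.trdeg ℂ L = n)
    [Algebra.EssFiniteType ℂ L] (φ : K →ₐ[ℂ] L) {x : Fin n → K} {E : Fin n → Derivation ℂ K K}
    (hx : IsTranscendenceBasis ℂ x) (hE : ∀ i j, E i (x j) = if i = j then 1 else 0)
    {σ : Tensor K r} (hσ : σ ≠ 0) : pb φ x E σ ≠ 0 := by
  obtain ⟨E', h1, h2, h3⟩ := exists_frame hn hn' φ hx hE
  intro h0
  apply hσ
  refine tensor_ext hx hE fun I => ?_
  have h4 := pb_lift φ hx hE h1 σ I
  rw [h0] at h4
  exact ((map_eq_zero φ).1 h4.symm)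

/-- the pull back of a holomorphic tensor field is holomorphic -/
theorem pb_hol (hess : Algebra.EssFiniteType ℂ K) (hn : Algebra.trdeg ℂ K = n)
    (hn' : Algebra.trdeg ℂ L = n)
    [Algebra.EssFiniteType ℂ L] (φ : K →ₐ[ℂ] L) {x : Fin n → K} {E : Fin n → Derivation ℂ K K}
    (hx : IsTranscendenceBasis ℂ x) (hE : ∀ i j, E i (x j) = if i = j then 1 else 0)
    {σ : Tensor K r} (hσ : HolomorphicTensor n σ) : HolomorphicTensor n (pb φ x E σ) := by
  intro Q hQ D hD
  let _ : Algebra K L := φ.toRingHom.toAlgebra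
  have hst : IsScalarTower ℂ K L := IsScalarTower.of_algebraMap_eq fun c => (φ.commutes c).symm
  have hfd : FiniteDimensional K L := finite_map hn hn'
  have h1 : IsTensorSection n ∅ σ 1 1 := hol_iff.1 (by rwa [one_smul])
  have h2 := (treg_section hess hn hx hE le_rfl h1 hQ (D := D)).2 (Set.notMem_empty _) hD
  rw [map_one, one_mul, pow_one] at h2
  rw [pb_apply]
  exact h2

/-- the pull backs of independent tensor fields are independent -/
theorem pb_indep (hn : Algebra.trdeg ℂ K = n) (hn' : Algebra.trdeg ℂ L = n)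
    [Algebra.EssFiniteType ℂ L] (φ : K →ₐ[ℂ] L) {x : Fin n → K} {E : Fin n → Derivation ℂ K K}
    (hx : IsTranscendenceBasis ℂ x) (hE : ∀ i j, E i (x j) = if i = j then 1 else 0)
    {τ : Fin q → Tensor K r} (h : LinearIndependent K τ) :
    LinearIndependent L fun i => pb φ x E (τ i) := by
  apply det_ne_indep
  rw [← pb_det hn hn' φ hx hE τ]
  exact pb_ne hn hn' φ hx hE (detTensor_ne h)

end

section

variable {K : Type} [Field K] [Algebra ℂ K] {n r : ℕ}

/-- the linear system of the sections of the sheaf of rank one generated by `σ` -/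
def secs (n : ℕ) (σ : Tensor K r) : Submodule ℂ K where
  carrier := {g | HolomorphicTensor n (g • σ)}
  zero_mem' := by
    intro P hP E hE
    rw [zero_smul]
    exact P.reg_zero
  add_mem' := by
    intro f g hf hg P hP E hE
    rw [add_smul]
    exact P.reg_add (hf P hP E hE) (hg P hP E hE)
  smul_mem' := by
    intro c f hf P hP E hE
    have h1 := hf P hP E hE
    have h2 : ((c • f) • σ) E = algebraMap ℂ K c * (f • σ) E := by
      rw [smul_apply, smul_apply, smul_eq_mul, smul_eq_mul, Algebra.smul_def, mul_assoc]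
    rw [h2]
    refine P.reg_mul ?_ h1
    by_cases hc : c = 0
    · rw [hc, map_zero]
      exact P.reg_zero
    · exact Or.inr (by rw [P.ord_const hc])

theorem mem_secs {σ : Tensor K r} {g : K} : g ∈ secs n σ ↔ HolomorphicTensor n (g • σ) := Iff.rfl

/-- **The invariant sheaf of rank one.** -/
theorem exists_inv [hess : Algebra.EssFiniteType ℂ K] (hn : Algebra.trdeg ℂ K = n)
    {x : Fin n → K} {E : Fin n → Derivation ℂ K K} (hx : IsTranscendenceBasis ℂ x)
    (hE : ∀ i j, E i (x j) = if i = j then 1 else 0) {l : ℕ} {τ : Fin l → Tensor K r}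
    (hτ : ∀ i, HolomorphicTensor n (τ i)) (hind : LinearIndependent K τ) :
    ∃ (s : ℕ) (σ : Tensor K s), σ ≠ 0 ∧ (1 : K) ∈ secs n σ ∧
      (∀ φ : K →ₐ[ℂ] K, ∃ c : K, c ≠ 0 ∧ ∀ g ∈ secs n σ, c * φ g ∈ secs n σ) ∧
      ∀ i, ∀ g : K, HolomorphicTensor n (g • τ i) → g ∈ secs n σ := by
  classical
  obtain ⟨q, v, hv1, hv2, hv3, hmax⟩ := exists_max hx hE hτ hind
  have hσ := detTensor_ne hv2
  refine ⟨q * r, detTensor v, hσ, ?_, fun φ => ?_, fun i g hg => ?_⟩
  · rw [mem_secs, one_smul]
    exact det_hol hv1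
  · obtain ⟨c, hc⟩ := det_prop hmax (w := fun i => pb φ x E (v i))
      fun i => pb_hol hess hn hn φ hx hE (hv1 i)
    rw [← pb_det hn hn φ hx hE v] at hc
    refine ⟨c, ?_, fun g hg => ?_⟩
    · rintro rfl
      rw [zero_smul] at hc
      exact pb_ne hn hn φ hx hE hσ hc
    · rw [mem_secs] at hg ⊢
      have h1 := pb_hol hess hn hn φ hx hE hg
      rw [pb_smul, hc, smul_smul, mul_comm (φ g) c] at h1
      exact h1
  · obtain ⟨j, hj⟩ := hv3 i
    rw [mem_secs]
    have h1 : g • detTensor v = detTensor (Function.update v j (g • v j)) := by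
      ext F
      obtain ⟨A, hA⟩ : ∃ A : Matrix (Fin q) (Fin q) K,
        A = Matrix.of fun i b => (v i) fun a => F (finProdFinEquiv (b, a)) := ⟨_, rfl⟩
      have e1 : (Matrix.of fun i b => (Function.update v j (g • v j) i) fun a =>
          F (finProdFinEquiv (b, a))) = A.updateRow j (g • A j) := by
        ext a b
        rw [Matrix.updateRow_apply, Matrix.of_apply]
        by_cases ha : a = j
        · rw [if_pos ha, ha, Function.update_self, hA]
          rfl
        · rw [if_neg ha, Function.update_of_ne ha, hA]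
          rfl
      rw [smul_apply, smul_eq_mul, detTensor_apply, detTensor_apply, e1, ← hA,
        Matrix.det_updateRow_smul, Matrix.updateRow_eq_self]
    rw [h1]
    refine det_hol fun a => ?_
    by_cases ha : a = j
    · rw [ha, Function.update_self, hj]
      exact hg
    · rw [Function.update_of_ne ha]
      exact hv1 a

end

end Pool.Agent.T2H07.TS
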