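import Pool.Agent.T2H07.TS.TrDefs

/-!
**Endomorphisms of a field on finite dimensional invariant subspaces.**
-/

set_option autoImplicit false
set_option linter.unusedSectionVars false
set_option linter.unusedVariables false

open Module

namespace Pool.Agent.T2H07.TS

/-- the difference operator is surjective on polynomials -/
theorem diff_surj {k : Type} [Field k] [CharZero k] (n : ℕ) : ∀ q : Polynomial k,
    q.natDegree ≤ n → ∃ Q : Polynomial k, Q.comp (Polynomial.X + 1) - Q = q := by
  induction n with
  | zero =>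
    intro q hq
    rw [Polynomial.eq_C_of_natDegree_le_zero hq]
    refine ⟨Polynomial.C (q.coeff 0) * Polynomial.X, ?_⟩
    simp only [Polynomial.mul_comp, Polynomial.C_comp, Polynomial.X_comp]
    ring
  | succ n ih =>
    intro q hq
    obtain ⟨c, hc⟩ : ∃ c : k, c = q.coeff (n + 1) / (n + 2 : k) := ⟨_, rfl⟩
    have hn2 : (n + 2 : k) ≠ 0 := by
      have := Nat.cast_ne_zero (R := k).2 (show n + 2 ≠ 0 by omega)
      push_cast at this
      exact this
    obtain ⟨T, hT⟩ : ∃ T : Polynomial k, T = Polynomial.C c * Polynomial.X ^ (n + 2) := ⟨_, rfl⟩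
    have h1 : (q - (T.comp (Polynomial.X + 1) - T)).natDegree ≤ n := by
      rw [Polynomial.natDegree_le_iff_coeff_eq_zero]
      intro N hN
      rw [Polynomial.coeff_sub, Polynomial.coeff_sub, hT, Polynomial.mul_comp, Polynomial.C_comp,
        Polynomial.pow_comp, Polynomial.X_comp, Polynomial.coeff_C_mul, Polynomial.coeff_C_mul,
        Polynomial.coeff_X_pow, ← Polynomial.C_1, Polynomial.coeff_X_add_C_pow, one_pow, one_mul]
      rcases lt_trichotomy N (n + 2) with h | h | h
      · have hN1 : N = n + 1 := by omega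
        subst hN1
        rw [if_neg (by omega), mul_zero, sub_zero]
        have h3 : (n + 2).choose (n + 1) = n + 2 := by
          rw [Nat.choose_succ_self_right]
        rw [h3, hc]
        push_cast
        field_simp
        ring
      · subst h
        rw [if_pos rfl, Nat.choose_self, Polynomial.coeff_eq_zero_of_natDegree_lt (by omega)]
        simp
      · rw [if_neg (by omega), Nat.choose_eq_zero_of_lt h,
          Polynomial.coeff_eq_zero_of_natDegree_lt (by omega)]
        simp
    obtain ⟨Q, hQ⟩ := ih _ h1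
    refine ⟨Q + T, ?_⟩
    rw [Polynomial.add_comp]
    linear_combination hQ

section

variable {K : Type} [Field K] [Algebra ℂ K]

theorem mem_fixed {φ : K →ₐ[ℂ] K} {g : K} : g ∈ fixed φ ↔ φ g = g := Iff.rfl

/-- the endomorphism is linear over its invariants -/
def ovr (φ : K →ₐ[ℂ] K) : K →ₐ[fixed φ] K :=
  { φ.toRingHom with commutes' := fun z => z.2 }

theorem ovr_apply (φ : K →ₐ[ℂ] K) (g : K) : ovr φ g = φ g := rfl

/-- generalised invariants are polynomials in a function `u` with `φ u = u + 1` -/
theorem gen_inv {φ : K →ₐ[ℂ] K} (k : ℕ) : ∀ g : K,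
    ((φ.toLinearMap - (1 : Module.End ℂ K)) ^ k) g = 0 →
      g ∈ Algebra.adjoin (fixed φ) (semi φ) := by
  have : CharZero (fixed φ) := charZero_of_injective_algebraMap (algebraMap ℂ (fixed φ)).injective
  by_cases hU : ∃ u : K, φ u = u + 1
  · obtain ⟨u, hu⟩ := hU
    have key : ∀ k : ℕ, ∀ g : K, ((φ.toLinearMap - (1 : Module.End ℂ K)) ^ k) g = 0 →
        ∃ q : Polynomial (fixed φ), Polynomial.aeval u q = g := by
      intro k
      induction k with
      | zero =>
        intro g hg
        exact ⟨0, by simpa using hg.symm⟩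
      | succ k ih =>
        intro g hg
        rw [pow_succ, Module.End.mul_apply] at hg
        obtain ⟨q, hq⟩ := ih _ hg
        obtain ⟨Q, hQ⟩ := diff_surj q.natDegree q le_rfl
        have h1 : φ (Polynomial.aeval u Q) = Polynomial.aeval u Q + Polynomial.aeval u q := by
          have h0 := (Polynomial.aeval_algHom_apply (ovr φ) u Q).symm
          rw [ovr_apply, ovr_apply, hu] at h0
          rw [← hQ, map_sub, Polynomial.aeval_comp, h0]
          simp
        have h2 : φ (g - Polynomial.aeval u Q) = g - Polynomial.aeval u Q := by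
          rw [map_sub, h1, hq]
          simp only [LinearMap.sub_apply, AlgHom.toLinearMap_apply, Module.End.one_apply]
          ring
        refine ⟨Q + Polynomial.C ⟨_, h2⟩, ?_⟩
        rw [map_add, Polynomial.aeval_C]
        change Polynomial.aeval u Q + (g - Polynomial.aeval u Q) = g
        ring
    intro g hg
    obtain ⟨q, rfl⟩ := key k g hg
    have hsub : ({u} : Set K) ⊆ semi φ := Set.singleton_subset_iff.2 (Or.inr hu)
    exact Algebra.adjoin_mono hsub (Polynomial.aeval_mem_adjoin_singleton _ u)
  · have key : ∀ k : ℕ, ∀ g : K, ((φ.toLinearMap - (1 : Module.End ℂ K)) ^ k) g = 0 →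
        φ g = g := by
      intro k
      induction k with
      | zero =>
        intro g hg
        have h0 : g = 0 := by simpa using hg
        rw [h0, map_zero]
      | succ k ih =>
        intro g hg
        rw [pow_succ, Module.End.mul_apply] at hg
        have h1 := ih _ hg
        simp only [LinearMap.sub_apply, AlgHom.toLinearMap_apply, Module.End.one_apply] at h1
        obtain ⟨z, hz⟩ : ∃ z, z = φ g - g := ⟨_, rfl⟩
        rw [← hz] at h1
        by_cases hz0 : z = 0
        · rw [hz0] at hz
          exact (sub_eq_zero.1 hz.symm)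
        · exfalso
          refine hU ⟨g / z, ?_⟩
          have h2 : φ g = g + z := by
            rw [hz]
            ring
          rw [map_div₀, h1, h2, add_div, div_self hz0]
    intro g hg
    exact Subalgebra.algebraMap_mem _ (⟨g, key k g hg⟩ : fixed φ)

/-- generalised eigenvectors -/
theorem gen_eig {φ : K →ₐ[ℂ] K} {μ : ℂ} (hμ : μ ≠ 0) (k : ℕ) (g : K)
    (hg : ((φ.toLinearMap - μ • (1 : Module.End ℂ K)) ^ k) g = 0) :
    g ∈ Algebra.adjoin (fixed φ) (semi φ) := by
  by_cases hg0 : g = 0
  · rw [hg0]
    exact zero_mem _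
  -- an eigenvector
  obtain ⟨h, hh0, hh⟩ : ∃ h : K, h ≠ 0 ∧ φ h = μ • h := by
    classical
    have hex : ∃ k, ((φ.toLinearMap - μ • (1 : Module.End ℂ K)) ^ k) g = 0 := ⟨k, hg⟩
    obtain ⟨m, hm⟩ : ∃ m, m = Nat.find hex := ⟨_, rfl⟩
    have h1 : ((φ.toLinearMap - μ • (1 : Module.End ℂ K)) ^ m) g = 0 := by
      rw [hm]
      exact Nat.find_spec hex
    cases m with
    | zero => exact absurd (by simpa using h1) hg0
    | succ m =>
      refine ⟨((φ.toLinearMap - μ • (1 : Module.End ℂ K)) ^ m) g, ?_, ?_⟩
      · exact Nat.find_min hex (by omega)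
      · rw [pow_succ', Module.End.mul_apply] at h1
        simpa [sub_eq_zero] using h1
  have hφ : ∀ x : K, (φ.toLinearMap - (1 : Module.End ℂ K)) (x / h) =
      μ⁻¹ • ((φ.toLinearMap - μ • (1 : Module.End ℂ K)) x / h) := by
    intro x
    simp only [LinearMap.sub_apply, AlgHom.toLinearMap_apply, Module.End.one_apply,
      LinearMap.smul_apply, map_div₀, hh]
    have hμK : algebraMap ℂ K μ ≠ 0 := by
      rwa [Ne, map_eq_zero]
    rw [Algebra.smul_def, Algebra.smul_def, Algebra.smul_def, map_inv₀]
    field_simp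
  have hpow : ∀ m : ℕ, ∀ x : K, ((φ.toLinearMap - (1 : Module.End ℂ K)) ^ m) (x / h) =
      μ⁻¹ ^ m • (((φ.toLinearMap - μ • (1 : Module.End ℂ K)) ^ m) x / h) := by
    intro m
    induction m with
    | zero => intro x; simp
    | succ m ih =>
      intro x
      rw [pow_succ', Module.End.mul_apply, ih, map_smul, hφ, smul_smul, pow_succ' (φ.toLinearMap - _),
        Module.End.mul_apply, pow_succ]
  have h1 : g / h ∈ Algebra.adjoin (fixed φ) (semi φ) := by
    refine gen_inv k _ ?_
    rw [hpow, hg, zero_div, smul_zero]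
  have h2 : g = (g / h) * h := by field_simp
  rw [h2]
  exact mul_mem h1 (Algebra.subset_adjoin (Or.inl ⟨μ, hh⟩))

/-- finite dimensional invariant subspaces -/
theorem fin_sub {φ : K →ₐ[ℂ] K} {E : Submodule ℂ K} [FiniteDimensional ℂ E]
    (hE : ∀ g ∈ E, φ g ∈ E) {g : K} (hg : g ∈ E) :
    g ∈ Algebra.adjoin (fixed φ) (semi φ) := by
  obtain ⟨f, hf⟩ : ∃ f : Module.End ℂ E, f = φ.toLinearMap.restrict hE := ⟨_, rfl⟩
  have hfc : ∀ x : E, ((f x : E) : K) = φ (x : K) := fun x => by
    rw [hf]
    rfl
  have hpow : ∀ (μ : ℂ) (k : ℕ) (x : E), ((((f - μ • (1 : Module.End ℂ E)) ^ k) x : E) : K) =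
      ((φ.toLinearMap - μ • (1 : Module.End ℂ K)) ^ k) (x : K) := by
    intro μ k
    induction k with
    | zero => intro x; simp
    | succ k ih =>
      intro x
      rw [pow_succ, Module.End.mul_apply, ih, pow_succ, Module.End.mul_apply]
      congr 1
      simp only [LinearMap.sub_apply, LinearMap.smul_apply, Module.End.one_apply,
        AlgHom.toLinearMap_apply]
      rw [← hfc]
      rfl
  have htop : (⟨g, hg⟩ : E) ∈ ⨆ μ : ℂ, f.maxGenEigenspace μ := by
    rw [Module.End.iSup_maxGenEigenspace_eq_top]
    exact Submodule.mem_top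
  refine Submodule.iSup_induction (fun μ : ℂ => f.maxGenEigenspace μ)
    (motive := fun x : E => (x : K) ∈ Algebra.adjoin (fixed φ) (semi φ)) htop ?_ ?_ ?_
  · intro μ x hx
    obtain ⟨k, hk⟩ := Module.End.mem_maxGenEigenspace _ _ _ |>.1 hx
    have h1 : ((φ.toLinearMap - μ • (1 : Module.End ℂ K)) ^ k) (x : K) = 0 := by
      rw [← hpow, hk]
      rfl
    by_cases hμ : μ = 0
    · have h2 : (x : K) = 0 := by
        rw [hμ, zero_smul, sub_zero] at h1
        have h3 : ∀ m : ℕ, ∀ y : K, ((φ.toLinearMap : Module.End ℂ K) ^ m) y = 0 → y = 0 := by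
          intro m
          induction m with
          | zero => intro y hy; simpa using hy
          | succ m ih =>
            intro y hy
            rw [pow_succ, Module.End.mul_apply] at hy
            have h4 := ih _ hy
            exact (map_eq_zero φ).1 h4
        exact h3 k _ h1
      rw [h2]
      exact zero_mem _
    · exact gen_eig hμ k _ h1
  · exact zero_mem _
  · intro x y hx hy
    exact add_mem hx hy

end

end Pool.Agent.T2H07.TS
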