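import Pool.Agent.T2H07.TS.TrA

/-!
**Endomorphisms of a field and the factors which are translations.**
-/

set_option autoImplicit false
set_option linter.unusedSectionVars false
set_option linter.unusedVariables false

open Module MvPolynomial

namespace Pool.Agent.T2H07.TS

section

variable {K : Type} [Field K] [Algebra ℂ K]

/-- enough semi-invariants -/
theorem exists_semi {φ : K →ₐ[ℂ] K} {d : ℕ} (hd : Algebra.trdeg ℂ (fixed φ) = d) {j : ℕ}
    {w : Fin j → K} (hw : AlgebraicIndependent ℂ w)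
    (hmem : ∀ i, ∃ a ∈ Algebra.adjoin (fixed φ) (semi φ),
      ∃ b ∈ Algebra.adjoin (fixed φ) (semi φ), w i = a / b) :
    ∃ h : Fin (j - d) → K, (∀ i, h i ∈ semi φ) ∧ AlgebraicIndependent (fixed φ) h := by
  classical
  obtain ⟨B, hB⟩ := (AlgebraicIndependent.matroid (fixed φ) K).exists_isBasis (semi φ)
    (Set.subset_univ _)
  obtain ⟨L, hL⟩ : ∃ L : IntermediateField (fixed φ) K,
      L = IntermediateField.adjoin (fixed φ) (semi φ) := ⟨_, rfl⟩
  have hLd : ∀ x ∈ L, ∃ a ∈ Algebra.adjoin (fixed φ) (semi φ),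
      ∃ b ∈ Algebra.adjoin (fixed φ) (semi φ), x = a / b := by
    intro x hx
    rw [hL] at hx
    exact IntermediateField.mem_adjoin_iff_div.1 hx
  have hwL : ∀ i, w i ∈ L := by
    intro i
    rw [hL]
    exact IntermediateField.mem_adjoin_iff_div.2 (hmem i)
  obtain ⟨ι, x, hx⟩ := exists_isTranscendenceBasis' (fixed φ) L
  have hxi : AlgebraicIndependent (fixed φ) (fun i => (x i : K)) :=
    hx.1.map' (f := L.val) Subtype.val_injective
  have hcl : Set.range (fun i => (x i : K)) ⊆
      (AlgebraicIndependent.matroid (fixed φ) K).closure (semi φ) := by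
    rintro _ ⟨i, rfl⟩
    rw [AlgebraicIndependent.matroid_closure_eq]
    obtain ⟨a, ha, b, hb, h⟩ := hLd _ (x i).2
    change (x i : K) ∈ Subalgebra.algebraicClosure _ _
    rw [Subalgebra.mem_algebraicClosure, h, div_eq_mul_inv]
    exact (isAlgebraic_algebraMap (⟨a, ha⟩ : Algebra.adjoin (fixed φ) (semi φ))).mul
      (isAlgebraic_algebraMap (⟨b, hb⟩ : Algebra.adjoin (fixed φ) (semi φ))).inv
  have hin : (AlgebraicIndependent.matroid (fixed φ) K).Indep
      (Set.range (fun i => (x i : K))) :=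
    AlgebraicIndependent.matroid_indep_iff.2 (AlgebraicIndependent.coe_range hxi)
  have h1 : (Set.range (fun i => (x i : K))).encard ≤ B.encard := by
    rw [hB.encard_eq_eRk, ← Matroid.eRk_closure_eq]
    exact hin.encard_le_eRk_of_subset hcl
  have h2 : (Set.range (fun i => (x i : K))).encard = Cardinal.toENat (Cardinal.mk ι) := by
    rw [← Set.image_univ, hxi.injective.encard_image, Set.encard_univ]
    rfl
  have h3 : (j : Cardinal) ≤ d + Cardinal.mk ι := by
    have hwi : AlgebraicIndependent ℂ (fun i => (⟨w i, hwL i⟩ : L)) :=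
      AlgebraicIndependent.of_comp ((L.restrictScalars ℂ).val) hw
    have h4 := hwi.cardinalMk_le_trdeg
    have h5 : Algebra.trdeg ℂ (fixed φ) + Algebra.trdeg (fixed φ) L = Algebra.trdeg ℂ L :=
      _root_.trdeg_add_eq ℂ (fixed φ) (A := L)
    rw [← h5, hd, ← hx.cardinalMk_eq_trdeg, Cardinal.mk_fin] at h4
    exact h4
  have h6 : (j : ℕ∞) ≤ d + B.encard := by
    have h7 := Cardinal.toENat.monotone' h3
    have h8 : Cardinal.toENat (j : Cardinal) ≤ Cardinal.toENat (d + Cardinal.mk ι) := h7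
    rw [map_add, Cardinal.toENat_nat, Cardinal.toENat_nat, ← h2] at h8
    exact h8.trans (by gcongr)
  have h9 : ((j - d : ℕ) : ℕ∞) ≤ B.encard := by
    rw [ENat.natCast_sub]
    exact tsub_le_iff_left.2 h6
  obtain ⟨t, htB, htj⟩ := Set.exists_subset_encard_eq h9
  have htf : t.Finite := Set.finite_of_encard_eq_coe htj
  have hcard : Nat.card t = j - d := by
    rw [Nat.card_coe_set_eq, Set.ncard, htj]
    rfl
  have := htf.to_subtype
  let e : Fin (j - d) ≃ t := (Finite.equivFinOfCardEq hcard).symm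
  refine ⟨fun i => (e i : K), fun i => hB.subset (htB (e i).2), ?_⟩
  have h3 : AlgebraicIndepOn (fixed φ) id B :=
    AlgebraicIndependent.matroid_indep_iff.1 hB.indep
  have h4 : AlgebraicIndepOn (fixed φ) id t := h3.mono htB
  exact AlgebraicIndependent.comp h4 e e.injective

/-- a monomial which is constant is trivial -/
theorem mono_const {k : Type} [Field k] [Algebra k K] {j : ℕ} {h : Fin j → K}
    (hind : AlgebraicIndependent k h) {a : Fin j → ℤ}
    {z : k} (hz : algebraMap k K z = ∏ i, h i ^ a i) : a = 0 := by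
  classical
  have h0 : ∀ i, h i ≠ 0 := fun i => hind.ne_zero i
  obtain ⟨p, hp⟩ : ∃ p : Fin j →₀ ℕ, ∀ i, p i = (a i).toNat :=
    ⟨Finsupp.equivFunOnFinite.symm fun i => (a i).toNat, fun i => rfl⟩
  obtain ⟨m, hm⟩ : ∃ m : Fin j →₀ ℕ, ∀ i, m i = (-a i).toNat :=
    ⟨Finsupp.equivFunOnFinite.symm fun i => (-a i).toNat, fun i => rfl⟩
  have h1 : ∏ i, h i ^ p i = algebraMap k K z * ∏ i, h i ^ m i := by
    rw [hz, ← Finset.prod_mul_distrib]
    refine Finset.prod_congr rfl fun i _ => ?_
    rw [← zpow_natCast, ← zpow_natCast, ← zpow_add₀ (h0 i), hp, hm]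
    congr 1
    omega
  have hmon : ∀ q : Fin j →₀ ℕ, aeval h (monomial q (1 : k)) = ∏ i, h i ^ q i := by
    intro q
    rw [aeval_monomial, map_one, one_mul, Finsupp.prod_fintype]
    intro i
    exact pow_zero _
  have h2 : aeval h (monomial p (1 : k) - C z * monomial m 1) = 0 := by
    rw [map_sub, map_mul, aeval_C, hmon, hmon, h1, sub_self]
  have h3 := (algebraicIndependent_iff.1 hind) _ h2
  have h4 : p = m := by
    by_contra hne
    have h5 := congrArg (coeff p) h3
    rw [coeff_sub, coeff_C_mul, coeff_monomial, coeff_monomial, if_pos rfl, if_neg (Ne.symm hne),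
      mul_zero, sub_zero, coeff_zero] at h5
    exact one_ne_zero h5
  funext i
  have h6 : p i = m i := by rw [h4]
  rw [hp, hm] at h6
  change a i = 0
  omega

/-- the form of the action on independent semi-invariants -/
theorem trans_prop {φ : K →ₐ[ℂ] K} {j : ℕ} {h : Fin j → K}
    (hh : ∀ i, h i ∈ semi φ) (hind : AlgebraicIndependent (fixed φ) h) :
    TranslationFactor φ j := by
  classical
  have hch : ∀ i, ∃ μ : ℂ, φ (h i) ≠ h i + 1 → φ (h i) = μ • h i := by
    intro i
    rcases hh i with ⟨μ, hμ⟩ | h1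
    · exact ⟨μ, fun _ => hμ⟩
    · exact ⟨0, fun h2 => absurd h1 h2⟩
  choose μ hμ using hch
  have hI : ∀ i ∉ {i | φ (h i) = h i + 1}, φ (h i) = μ i • h i := fun i hi => hμ i hi
  refine ⟨h, hind, μ, {i | φ (h i) = h i + 1}, ?_, fun i hi => hi, hI, ?_⟩
  · intro i hi i' hi'
    by_contra hne
    have h1 : φ (h i - h i') = h i - h i' := by
      rw [map_sub, show φ (h i) = h i + 1 from hi, show φ (h i') = h i' + 1 from hi']
      ring
    obtain ⟨z, hz⟩ : ∃ z : fixed φ, algebraMap (fixed φ) K z = h i - h i' := ⟨⟨_, h1⟩, rfl⟩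
    have h2 : aeval h (X i - X i' - C z) = 0 := by
      rw [map_sub, map_sub, aeval_X, aeval_X, aeval_C, hz, sub_self]
    have h3 := (algebraicIndependent_iff.1 hind) _ h2
    have h5 := congrArg (coeff (Finsupp.single i 1)) h3
    have e1 : (Finsupp.single i' 1 : Fin j →₀ ℕ) ≠ Finsupp.single i 1 := by
      intro h6
      have := DFunLike.congr_fun h6 i
      simp [Ne.symm hne] at this
    have e2 : (0 : Fin j →₀ ℕ) ≠ Finsupp.single i 1 := by
      intro h6
      have := DFunLike.congr_fun h6 i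
      simp at this
    simp [coeff_X, coeff_C, e1, e2] at h5
  · intro a ha hprod
    have h1 : φ (∏ i, h i ^ a i) = ∏ i, h i ^ a i := by
      rw [map_prod]
      have h2 : ∀ i, φ (h i ^ a i) = algebraMap ℂ K (μ i ^ a i) * h i ^ a i := by
        intro i
        by_cases hi : φ (h i) = h i + 1
        · rw [ha i hi]
          simp
        · rw [map_zpow₀, hμ i hi, Algebra.smul_def, mul_zpow, map_zpow₀]
      rw [Finset.prod_congr rfl fun i _ => h2 i, Finset.prod_mul_distrib, ← map_prod, hprod,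
        map_one, one_mul]
    exact mono_const hind (z := (⟨_, h1⟩ : fixed φ)) rfl

/-- **The factor of a linear system with a projective linear action.** -/
theorem factor {φ : K →ₐ[ℂ] K} {d : ℕ} (hd : Algebra.trdeg ℂ (fixed φ) = d)
    {E : Submodule ℂ K} (hfg : E.FG)
    (h1 : (1 : K) ∈ E) (hE : ∃ c : K, c ≠ 0 ∧ ∀ g ∈ E, c * φ g ∈ E) {j : ℕ} {w : Fin j → K}
    (hwE : ∀ i, ∃ a ∈ E, ∃ b ∈ E, w i = a / b) (hw : AlgebraicIndependent ℂ w) :
    TranslationFactor φ (j - d) := by
  obtain ⟨c, hc, hE⟩ := hE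
  have : FiniteDimensional ℂ E := Module.Finite.iff_fg.2 hfg
  have : Nontrivial E := ⟨⟨⟨1, h1⟩, 0, fun h => one_ne_zero (congrArg Subtype.val h)⟩⟩
  obtain ⟨f, hf⟩ : ∃ f : Module.End ℂ E, ∀ x : E, ((f x : E) : K) = c * φ (x : K) := by
    refine ⟨((LinearMap.mulLeft ℂ c).comp φ.toLinearMap).restrict hE, fun x => rfl⟩
  obtain ⟨lam, hlam⟩ := Module.End.exists_eigenvalue f
  obtain ⟨g, hg⟩ := hlam.exists_hasEigenvector
  have hg0 : (g : K) ≠ 0 := fun h => hg.2 (Subtype.ext h)
  have hgl : c * φ (g : K) = lam • (g : K) := by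
    rw [← hf, hg.apply_eq_smul]
    rfl
  have hlam0 : lam ≠ 0 := by
    rintro rfl
    rw [zero_smul] at hgl
    exact mul_ne_zero hc (fun h => hg0 ((map_eq_zero φ).1 h)) hgl
  obtain ⟨E', hE'⟩ : ∃ E' : Submodule ℂ K, E' = E.map (LinearMap.mulLeft ℂ (g : K)⁻¹) := ⟨_, rfl⟩
  have hmem : ∀ x ∈ E, x / (g : K) ∈ E' := by
    intro x hx
    rw [hE']
    exact ⟨x, hx, by rw [LinearMap.mulLeft_apply]; field_simp⟩
  have : FiniteDimensional ℂ E' := by
    rw [hE']
    exact Module.Finite.iff_fg.2 (hfg.map _)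
  have hinvE : ∀ x ∈ E', φ x ∈ E' := by
    intro x hx
    rw [hE'] at hx
    obtain ⟨e, he, rfl⟩ := hx
    have h2 : φ ((LinearMap.mulLeft ℂ (g : K)⁻¹) e) = lam⁻¹ • ((c * φ e) / (g : K)) := by
      rw [LinearMap.mulLeft_apply, map_mul, map_inv₀, Algebra.smul_def, map_inv₀]
      have h3 : φ (g : K) = algebraMap ℂ K lam * g / c := by
        rw [← Algebra.smul_def, ← hgl]
        field_simp
      rw [h3]
      have h4 : algebraMap ℂ K lam ≠ 0 := by rwa [Ne, map_eq_zero]
      field_simp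
    rw [h2]
    exact Submodule.smul_mem _ _ (hmem _ (hE e he))
  obtain ⟨h, hh, hind⟩ := exists_semi (φ := φ) hd hw fun i => by
    obtain ⟨a, ha, b, hb, hab⟩ := hwE i
    refine ⟨a / g, fin_sub hinvE (hmem a ha), b / g, fin_sub hinvE (hmem b hb), ?_⟩
    rw [hab, div_div_div_cancel_right₀ hg0]
  exact trans_prop hh hind

end

end Pool.Agent.T2H07.TS
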