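import Mathlib

/-!
Definitions: invariants and semi-invariants of a dominant rational self-map, and its factors which are
translations of commutative linear algebraic groups.
-/

set_option autoImplicit false

namespace Pool.Agent.T2H07.TS

section

variable {K : Type} [Field K] [Algebra ℂ K]

/-- The field of the invariant rational functions of the dominant rational self-map `f` of `X` given by
the endomorphism `φ = f^*` of the function field `K`. -/
def fixed (φ : K →ₐ[ℂ] K) : IntermediateField ℂ K where
  carrier := {g | φ g = g}
  mul_mem' := by
    intro a b ha hb
    change φ (a * b) = a * b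
    rw [map_mul, show φ a = a from ha, show φ b = b from hb]
  add_mem' := by
    intro a b ha hb
    change φ (a + b) = a + b
    rw [map_add, show φ a = a from ha, show φ b = b from hb]
  algebraMap_mem' z := φ.commutes z
  inv_mem' := by
    intro a ha
    change φ a⁻¹ = a⁻¹
    rw [map_inv₀, show φ a = a from ha]

/-- The functions `h` with `φ h = μ h` for a constant `μ`, or `φ h = h + 1`. -/
def semi (φ : K →ₐ[ℂ] K) : Set K :=
  {h | (∃ μ : ℂ, φ h = μ • h) ∨ φ h = h + 1}

/-- The dominant rational self-map `f` given by `φ = f^*` has a factor of dimension `j` which is a
translation of a torus or of the product of a torus and the additive group, transverse to its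
invariant functions: there are rational functions `h_i`, `i < j`, algebraically independent over the
field of invariant rational functions, with `f^* h_i = μ_i h_i`, except for at most one function `h_i`
with `f^* h_i = h_i + 1`, and the numbers `μ_i` are multiplicatively independent. -/
def TranslationFactor (φ : K →ₐ[ℂ] K) (j : ℕ) : Prop :=
  ∃ h : Fin j → K, AlgebraicIndependent (fixed φ) h ∧ ∃ (μ : Fin j → ℂ) (I : Set (Fin j)),
    I.Subsingleton ∧ (∀ i ∈ I, φ (h i) = h i + 1) ∧ (∀ i ∉ I, φ (h i) = μ i • h i) ∧
      ∀ a : Fin j → ℤ, (∀ i ∈ I, a i = 0) → ∏ i, μ i ^ a i = 1 → a = 0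

end

end Pool.Agent.T2H07.TS
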