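import Pool.Agent.T2H07.TS.Main
import Pool.Agent.T2H07.TS.TrB

/-!
**Rank one sheaves of tensor fields and the factors of dominant rational self-maps without
invariants.**
-/

set_option autoImplicit false
set_option linter.overlappingInstances false
set_option linter.unusedSectionVars false
set_option linter.unusedVariables false

open FF Module MvPolynomial Pool.Agent.W602.GT Pool.Agent.W603.LV Pool.Agent.W619.PQ
open Pool.Agent.Y172 Pool.Agent.Y191
open Pool.Agent.R887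

namespace Pool.Agent.T2H07.TS

section

variable {K : Type} [Field K] [Algebra ℂ K] {N n : ℕ} {y : Fin (N + 1) → K}

/-- the linear system of a sheaf of rank one with a projective linear action of all self-maps -/
theorem exists_lin (hy : NormalModel y) (hn : Algebra.trdeg ℂ K = n) (hn0 : 0 < n)
    {r : ℕ} {σ : Tensor K r} (hσ : σ ≠ 0) {j : ℕ} (h : TensorKodairaGe n ∅ σ j) :
    ∃ E : Submodule ℂ K, E.FG ∧ (1 : K) ∈ E ∧
      (∀ φ : K →ₐ[ℂ] K, ∃ c : K, c ≠ 0 ∧ ∀ g ∈ E, c * φ g ∈ E) ∧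
      ∃ w : Fin j → K, (∀ i, w i ∈ E) ∧ AlgebraicIndependent ℂ w := by
  have hess := hy.ess
  obtain ⟨x, E, hx, hE⟩ := exists_crd hn (k := ℂ) (K := K)
  obtain ⟨m, hm, g, hg, hg0, hind⟩ := h
  obtain ⟨τ, hτ⟩ : ∃ τ : Tensor K (m * r), τ = g 0 • tpow m σ := ⟨_, rfl⟩
  have hτ0 : τ ≠ 0 := by
    rw [hτ]
    exact smul_ne_zero hg0 (tpow_ne m hσ)
  obtain ⟨s, σ', hσ', h1, hmap, hsec⟩ := exists_inv (n := n) hn hx hE (l := 1) (τ := fun _ => τ)
    (fun _ => by rw [hτ]; exact hol_tpow hm (hg 0))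
    (LinearIndependent.of_subsingleton (0 : Fin 1) hτ0)
  refine ⟨secs n σ', secs_fg hy hn hn0 hσ', h1, hmap, fun i => g i.succ / g 0,
    fun i => hsec 0 _ ?_, hind⟩
  rw [hτ, smul_smul, div_mul_cancel₀ _ hg0]
  exact hol_tpow hm (hg _)

/-- **Translation factors.** -/
theorem trans_factor (hy : NormalModel y) (hn : Algebra.trdeg ℂ K = n) (hn0 : 0 < n)
    {φ : K →ₐ[ℂ] K} {d : ℕ} (hd : Algebra.trdeg ℂ (fixed φ) = d) {r : ℕ} {σ : Tensor K r}
    (hσ : σ ≠ 0) {j : ℕ} (h : TensorKodairaGe n ∅ σ j) : TranslationFactor φ (j - d) := by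
  obtain ⟨E, hfg, h1, hmap, w, hw, hind⟩ := exists_lin hy hn hn0 hσ h
  exact factor hd hfg h1 (hmap φ) (fun i => ⟨w i, hw i, 1, h1, (div_one _).symm⟩) hind

end

end Pool.Agent.T2H07.TS
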